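import Pool.Agent.H458.AU.Def
import Mathlib.NumberTheory.NumberField.Discriminant.Different
import Mathlib.NumberTheory.NumberField.Ideal.Basic
import Mathlib.NumberTheory.NumberField.Cyclotomic.Basic
import Mathlib.Analysis.PSeries

/-!
# Project AU (helper458), part DEG (helper665)

Rational primes `q`, one modulo `8 W`, with a prime of degree one of `F` over `q`: the sum of the `1 / q` diverges.
-/

set_option autoImplicit false
set_option linter.all false

open Polynomial NumberField IsDedekindDomain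
open scoped Classical

namespace Pool.Agent.H665.AU458

open Pool.Agent.N352.PF (nv)
open Pool.Agent.H458.AU

section

variable {E : Type} [Field E] [NumberField E]

theorem ne_bot_of_mem {q : ℕ} (hq : q.Prime) {𝔭 : Ideal (𝓞 E)} (h : (q : 𝓞 E) ∈ 𝔭) : 𝔭 ≠ ⊥ := by
  rintro rfl
  rw [Ideal.mem_bot] at h
  exact hq.ne_zero (by exact_mod_cast h)

theorem norm_nat (q : ℕ) :
    Ideal.absNorm (Ideal.span {(q : 𝓞 E)}) = q ^ Module.finrank ℤ (𝓞 E) := by
  rw [Ideal.absNorm_span_singleton]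
  have h2 : Algebra.norm ℤ (q : 𝓞 E) = (q : ℤ) ^ Module.finrank ℤ (𝓞 E) := by
    have : (q : 𝓞 E) = algebraMap ℤ (𝓞 E) (q : ℤ) := by simp
    rw [this, Algebra.norm_algebraMap]
  rw [h2, Int.natAbs_pow, Int.natAbs_natCast]

/-- the norm of a prime ideal over `q` is a power of `q` -/
theorem absNorm_pow {q : ℕ} (hq : q.Prime) {𝔭 : Ideal (𝓞 E)} (hp : 𝔭.IsPrime)
    (h : (q : 𝓞 E) ∈ 𝔭) : ∃ k, 1 ≤ k ∧ Ideal.absNorm 𝔭 = q ^ k := by
  have h1 : Ideal.absNorm 𝔭 ∣ Ideal.absNorm (Ideal.span {(q : 𝓞 E)}) :=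
    Ideal.absNorm_dvd_absNorm_of_le ((Ideal.span_singleton_le_iff_mem _).mpr h)
  rw [norm_nat] at h1
  obtain ⟨k, hk, hk2⟩ := (Nat.dvd_prime_pow hq).mp h1
  rcases Nat.eq_zero_or_pos k with rfl | hk0
  · rw [pow_zero, Ideal.absNorm_eq_one_iff] at hk2
    exact absurd hk2 hp.ne_top
  · exact ⟨k, hk0, hk2⟩

/-- large primes are unramified -/
theorem not_mem_sq {q : ℕ} (hq : q.Prime) (hd : (discr E).natAbs < q) {𝔭 : Ideal (𝓞 E)}
    (hp : 𝔭.IsPrime) : (q : 𝓞 E) ∉ 𝔭 ^ 2 := by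
  intro h
  have hqp : (q : 𝓞 E) ∈ 𝔭 := Ideal.pow_le_self (by norm_num) h
  have hmax : (Ideal.span {(q : ℤ)}).IsMaximal := by
    have : Prime (q : ℤ) := Nat.prime_iff_prime_int.mp hq
    exact PrincipalIdealRing.isMaximal_of_irreducible this.irreducible
  have hne : (Ideal.span {(q : ℤ)}) ≠ ⊥ := by
    rw [Ne, Ideal.span_singleton_eq_bot]
    exact_mod_cast hq.ne_zero
  have hdv : 𝔭 ^ 2 ∣ (Ideal.span {(q : ℤ)}).map (algebraMap ℤ (𝓞 E)) := by
    rw [Ideal.dvd_iff_le, Ideal.map_span, Set.image_singleton, Ideal.span_singleton_le_iff_mem]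
    simpa using h
  have h1 := pow_sub_one_dvd_differentIdeal ℤ 𝔭 2 hne hdv
  rw [show 2 - 1 = 1 from rfl, pow_one] at h1
  have h2 : Ideal.absNorm 𝔭 ∣ (discr E).natAbs := by
    rw [← absNorm_differentIdeal E (𝓞 E)]
    exact Ideal.absNorm_dvd_absNorm_of_le (Ideal.dvd_iff_le.mp h1)
  obtain ⟨k, hk, hk2⟩ := absNorm_pow hq hp hqp
  have h3 : q ∣ (discr E).natAbs := by
    refine dvd_trans ?_ h2
    rw [hk2]
    exact dvd_pow_self _ (by omega)
  have h4 := Nat.le_of_dvd (Int.natAbs_pos.mpr (discr_ne_zero E)) h3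
  omega

/-- the number of the primes over `q` -/
theorem card_over {q : ℕ} (hq : q.Prime) (S : Finset (HeightOneSpectrum (𝓞 E)))
    (h : ∀ v ∈ S, (q : 𝓞 E) ∈ v.asIdeal) : S.card ≤ Module.finrank ℤ (𝓞 E) := by
  have h1 : ∏ v ∈ S, v.asIdeal ∣ Ideal.span {(q : 𝓞 E)} := by
    refine Finset.prod_dvd_of_coprime ?_ ?_
    · intro v hv w hw hvw
      exact Ideal.isCoprime_of_isMaximal (I := v.asIdeal) (J := w.asIdeal) fun h2 => hvw (HeightOneSpectrum.ext h2)
    · intro v hv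
      rw [Ideal.dvd_iff_le, Ideal.span_singleton_le_iff_mem]
      exact h v hv
  have h2 : ∏ v ∈ S, Ideal.absNorm v.asIdeal ∣ q ^ Module.finrank ℤ (𝓞 E) := by
    rw [← norm_nat, ← map_prod]
    exact Ideal.absNorm_dvd_absNorm_of_le (Ideal.dvd_iff_le.mp h1)
  have h3 : q ^ S.card ≤ ∏ v ∈ S, Ideal.absNorm v.asIdeal := by
    rw [← Finset.prod_const]
    refine Finset.prod_le_prod' fun v hv => ?_
    obtain ⟨k, hk, hk2⟩ := absNorm_pow hq v.isPrime (h v hv)
    rw [hk2]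
    calc q = q ^ 1 := (pow_one q).symm
      _ ≤ q ^ k := Nat.pow_le_pow_right hq.pos hk
  have h4 := h3.trans (Nat.le_of_dvd (pow_pos hq.pos _) h2)
  exact (Nat.pow_le_pow_iff_right hq.one_lt).1 h4

theorem exists_prime_mem {𝔭 : Ideal (𝓞 E)} (hp : 𝔭.IsPrime) (n : ℕ) :
    0 < n → (n : 𝓞 E) ∈ 𝔭 → ∃ p : ℕ, p.Prime ∧ (p : 𝓞 E) ∈ 𝔭 := by
  induction n using induction_on_primes with
  | zero => exact fun h => absurd h (lt_irrefl 0)
  | one =>
    intro _ h
    rw [Nat.cast_one] at h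
    exact absurd ((Ideal.eq_top_iff_one _).2 h) hp.ne_top
  | prime_mul p a hpp ih =>
    intro h1 h2
    rw [Nat.cast_mul] at h2
    rcases hp.mem_or_mem h2 with h3 | h3
    · exact ⟨p, hpp, h3⟩
    · exact ih (Nat.pos_of_ne_zero fun h4 => by rw [h4, mul_zero] at h1; exact absurd h1 (lt_irrefl 0)) h3

/-- the rational prime under `v` -/
theorem under_prime (v : HeightOneSpectrum (𝓞 E)) :
    ∃ p : ℕ, p.Prime ∧ (p : 𝓞 E) ∈ v.asIdeal ∧ ∃ k, 1 ≤ k ∧ nv v = p ^ k := by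
  have h1 : 0 < nv v := Nat.pos_of_ne_zero fun h => v.ne_bot (Ideal.absNorm_eq_zero_iff.1 h)
  obtain ⟨p, hp, hp2⟩ := exists_prime_mem v.isPrime (nv v) h1 (Ideal.absNorm_mem _)
  exact ⟨p, hp, hp2, absNorm_pow hp v.isPrime hp2⟩

/-- the primes whose norm is not a prime number do not matter -/
theorem sum_le (T : Finset (HeightOneSpectrum (𝓞 E))) :
    ∑ v ∈ T, 1 / (nv v : ℝ) ≤ (Module.finrank ℤ (𝓞 E) : ℝ) *
      ∑ q ∈ (T.filter fun v => (nv v).Prime).image nv, 1 / (q : ℝ) +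
      (Module.finrank ℤ (𝓞 E) : ℝ) * ∑' n : ℕ, 1 / (n : ℝ) ^ 2 := by
  choose p hp hpm k hk hpk using fun v : HeightOneSpectrum (𝓞 E) => under_prime v
  rw [← Finset.sum_filter_add_sum_filter_not T (fun v => (nv v).Prime)]
  refine add_le_add ?_ ?_
  · rw [← Finset.sum_fiberwise_of_maps_to (s := T.filter fun v => (nv v).Prime)
      (t := (T.filter fun v => (nv v).Prime).image nv) (g := nv)
      (fun v hv => Finset.mem_image_of_mem _ hv), Finset.mul_sum]
    refine Finset.sum_le_sum fun q hq => ?_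
    obtain ⟨v₀, hv₀, hv₀q⟩ := Finset.mem_image.1 hq
    have hqp : q.Prime := by
      rw [← hv₀q]
      exact (Finset.mem_filter.1 hv₀).2
    have h1 : ∑ v ∈ (T.filter fun v => (nv v).Prime) with nv v = q, 1 / (nv v : ℝ) =
        ∑ v ∈ (T.filter fun v => (nv v).Prime) with nv v = q, 1 / (q : ℝ) := by
      refine Finset.sum_congr rfl fun v hv => ?_
      rw [(Finset.mem_filter.1 hv).2]
    rw [h1, Finset.sum_const, nsmul_eq_mul]
    refine mul_le_mul_of_nonneg_right ?_ (by positivity)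
    have h2 := card_over hqp ((T.filter fun v => (nv v).Prime).filter fun v => nv v = q) (by
      intro v hv
      have h3 := Ideal.absNorm_mem v.asIdeal
      have h4 : nv v = q := (Finset.mem_filter.1 hv).2
      unfold nv at h4
      rwa [h4] at h3)
    exact_mod_cast h2
  · have h0 : ∀ v ∈ T.filter (fun v => ¬ (nv v).Prime), 1 / (nv v : ℝ) ≤ 1 / (p v : ℝ) ^ 2 := by
      intro v hv
      have h1 : ¬ (nv v).Prime := (Finset.mem_filter.1 hv).2
      have h2 : 2 ≤ k v := by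
        by_contra h3
        have h4 : k v = 1 := by have := hk v; omega
        apply h1
        rw [hpk v, h4, pow_one]
        exact hp v
      have h5 : (p v : ℝ) ^ 2 ≤ (nv v : ℝ) := by
        rw [hpk v]
        push_cast
        exact pow_le_pow_right₀ (by exact_mod_cast (hp v).one_lt.le) h2
      have h6 : (0 : ℝ) < (p v : ℝ) ^ 2 := pow_pos (by exact_mod_cast (hp v).pos) _
      exact one_div_le_one_div_of_le h6 h5
    refine (Finset.sum_le_sum h0).trans ?_
    rw [← Finset.sum_fiberwise_of_maps_to (s := T.filter fun v => ¬ (nv v).Prime)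
      (t := (T.filter fun v => ¬ (nv v).Prime).image p) (g := p)
      (fun v hv => Finset.mem_image_of_mem _ hv)]
    have h7 : ∑ q ∈ (T.filter fun v => ¬ (nv v).Prime).image p, 1 / (q : ℝ) ^ 2 ≤
        ∑' n : ℕ, 1 / (n : ℝ) ^ 2 :=
      Summable.sum_le_tsum _ (fun i _ => by positivity)
        (Real.summable_one_div_nat_pow.mpr (by norm_num))
    refine le_trans ?_ (mul_le_mul_of_nonneg_left h7 (by positivity))
    rw [Finset.mul_sum]
    refine Finset.sum_le_sum fun q hq => ?_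
    obtain ⟨v₀, hv₀, hv₀q⟩ := Finset.mem_image.1 hq
    have hqp : q.Prime := by
      rw [← hv₀q]
      exact hp v₀
    have h1 : ∑ v ∈ (T.filter fun v => ¬ (nv v).Prime) with p v = q, 1 / (p v : ℝ) ^ 2 =
        ∑ v ∈ (T.filter fun v => ¬ (nv v).Prime) with p v = q, 1 / (q : ℝ) ^ 2 := by
      refine Finset.sum_congr rfl fun v hv => ?_
      rw [(Finset.mem_filter.1 hv).2]
    rw [h1, Finset.sum_const, nsmul_eq_mul]
    refine mul_le_mul_of_nonneg_right ?_ (by positivity)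
    have h2 := card_over hqp ((T.filter fun v => ¬ (nv v).Prime).filter fun v => p v = q) (by
      intro v hv
      have h4 : p v = q := (Finset.mem_filter.1 hv).2
      rw [← h4]
      exact hpm v)
    exact_mod_cast h2

theorem card_quot (P : Ideal (𝓞 E)) : Nat.card (𝓞 E ⧸ P) = Ideal.absNorm P := by
  rw [Ideal.absNorm_apply, Submodule.cardQuot_apply]

/-- a prime number which is the norm of a prime ideal of a field with a primitive root of unity -/
theorem mod_of_root {m q : ℕ} [NeZero m] {ζ : 𝓞 E} (hζ : IsPrimitiveRoot ζ m) (hq : q.Prime)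
    (hmq : m < q) {P : Ideal (𝓞 E)} (hP : P.IsPrime) (hPq : Ideal.absNorm P = q) :
    q % m = 1 % m := by
  have hm : 0 < m := Nat.pos_of_ne_zero (NeZero.ne m)
  have h0 : P ≠ ⊥ := by
    rintro rfl
    rw [Ideal.absNorm_bot] at hPq
    exact hq.ne_zero hPq.symm
  haveI hPm : P.IsMaximal := hP.isMaximal h0
  have h1 : IsPrimitiveRoot (Ideal.Quotient.mk P ζ) m := by
    refine hζ.idealQuotient_mk ?_ ?_
    · rw [hPq]
      exact hq.one_lt.ne'
    · rw [hPq]
      exact (Nat.Prime.coprime_iff_not_dvd hq).2 fun h => absurd (Nat.le_of_dvd hm h) (by omega)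
  letI := Ideal.Quotient.field P
  haveI : Finite (𝓞 E ⧸ P) := inferInstance
  haveI := Fintype.ofFinite (𝓞 E ⧸ P)
  have h2 : Ideal.Quotient.mk P ζ ≠ 0 := h1.ne_zero hm.ne'
  have h3 : Fintype.card (𝓞 E ⧸ P) = q := by
    rw [← Nat.card_eq_fintype_card, card_quot, hPq]
  have h4 := FiniteField.pow_card_sub_one_eq_one (Ideal.Quotient.mk P ζ) h2
  rw [h3] at h4
  have h5 := h1.dvd_of_pow_eq_one (q - 1) h4
  exact ((Nat.modEq_iff_dvd' hq.one_lt.le).2 h5).symm

/-- the norm of a prime ideal under a prime ideal of degree one -/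
theorem comap_norm {F : Type} [Field F] [NumberField F] [Algebra F E] {q : ℕ} (hq : q.Prime)
    {P : Ideal (𝓞 E)} (hP : P.IsPrime) (hPq : Ideal.absNorm P = q) :
    Ideal.absNorm (P.comap (algebraMap (𝓞 F) (𝓞 E))) = q := by
  have h1 : Nat.card (𝓞 F ⧸ P.comap (algebraMap (𝓞 F) (𝓞 E))) ∣ Nat.card (𝓞 E ⧸ P) :=
    AddSubgroup.card_dvd_of_injective
      (Ideal.quotientMap P (algebraMap (𝓞 F) (𝓞 E)) le_rfl).toAddMonoidHom
      Ideal.quotientMap_injective
  rw [card_quot, card_quot, hPq] at h1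
  rcases (Nat.dvd_prime hq).1 h1 with h2 | h2
  · exfalso
    rw [Ideal.absNorm_eq_one_iff, Ideal.comap_eq_top_iff] at h2
    exact hP.ne_top h2
  · exact h2

end

theorem deg (h : S_SUM) : S_DEG := by
  intro F _ _ W X₀ M hW
  obtain ⟨m, hm⟩ : ∃ m : ℕ, m = 8 * W := ⟨_, rfl⟩
  haveI : NeZero m := ⟨by omega⟩
  obtain ⟨X₁, hX₁⟩ : ∃ X : ℕ, X = X₀ + m + W + (discr F).natAbs := ⟨_, rfl⟩
  obtain ⟨C, hC⟩ : ∃ C : ℝ, C = ∑' n : ℕ, 1 / (n : ℝ) ^ 2 := ⟨_, rfl⟩
  obtain ⟨D, hD⟩ : ∃ D : ℝ, D = (Module.finrank ℤ (𝓞 (CyclotomicField m F)) : ℝ) := ⟨_, rfl⟩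
  have hD0 : 0 < D := by
    rw [hD]
    exact_mod_cast Module.finrank_pos
  obtain ⟨T, hT1, hT2⟩ := h (CyclotomicField m F) X₁ (D * M + D * C)
  have hζ := (IsCyclotomicExtension.zeta_spec m F (CyclotomicField m F)).toInteger_isPrimitiveRoot
  have hdata : ∀ q : ℕ, ∃ 𝔮 : Ideal (𝓞 F), q ∈ (T.filter fun v => (nv v).Prime).image nv →
      (X₀ < q ∧ PrQ W q 𝔮 ∧ Ideal.absNorm 𝔮 = q) := by
    intro q
    by_cases hq : q ∈ (T.filter fun v => (nv v).Prime).image nv
    · obtain ⟨v, hv, hvq⟩ := Finset.mem_image.1 hq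
      obtain ⟨hvT, hvp⟩ := Finset.mem_filter.1 hv
      have hqX : X₁ < q := by
        rw [← hvq]
        exact hT1 v hvT
      rw [hvq] at hvp
      have hvq' : Ideal.absNorm v.asIdeal = q := hvq
      have hn := comap_norm (F := F) hvp v.isPrime hvq'
      refine ⟨v.asIdeal.comap (algebraMap (𝓞 F) (𝓞 (CyclotomicField m F))), fun _ =>
        ⟨by omega, ⟨hvp, by omega, ?_, ?_, ?_, ?_⟩, hn⟩⟩
      · rw [← hm]
        exact mod_of_root hζ hvp (by omega) v.isPrime hvq'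
      · intro 𝔭 h𝔭
        exact not_mem_sq hvp (by omega) h𝔭
      · haveI := v.isPrime
        exact Ideal.IsPrime.comap _
      · have h1 := Ideal.absNorm_mem (v.asIdeal.comap (algebraMap (𝓞 F) (𝓞 (CyclotomicField m F))))
        rwa [hn] at h1
    · exact ⟨⊥, fun h => absurd h hq⟩
  choose 𝔮 h𝔮 using hdata
  refine ⟨(T.filter fun v => (nv v).Prime).image nv, 𝔮, h𝔮, ?_⟩
  have h1 := hT2.trans (sum_le T)
  rw [← hD, ← hC] at h1
  have h2 : D * M ≤ D * ∑ q ∈ (T.filter fun v => (nv v).Prime).image nv, 1 / (q : ℝ) := by linarith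
  exact le_of_mul_le_mul_left h2 hD0

end Pool.Agent.H665.AU458
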